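import Mathlib
import Pool.Agent.FS.ManyZeros.Main

set_option autoImplicit false

namespace Pool.Agent.Results.MP_51e19e_an.ManyZeros

/-- There is one sign sequence (`a n` is the sign of the term `1 / (t ^ 2 + (n + 1) ^ 2)`) whose
series has at least `c √X` distinct real zeros in `(-X, X)` for every large `X`. -/
theorem result :
    ∃ a : ℕ → ℝ, (∀ n, a n = 1 ∨ a n = -1) ∧ ∃ c : ℝ, 0 < c ∧ ∃ X₀ : ℝ, ∀ X : ℝ, X₀ ≤ X →
      ∃ S : Finset ℝ, (∀ t ∈ S, |t| < X ∧ ∑' n : ℕ, a n / (t ^ 2 + ((n : ℝ) + 1) ^ 2) = 0) ∧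
        c * √X ≤ (S.card : ℝ) := by
  simpa only [Pool.Agent.FS.ManyZeros.F, Pool.Agent.FS.ManyZeros.κ, mul_one_div] using
    Pool.Agent.FS.ManyZeros.main

end Pool.Agent.Results.MP_51e19e_an.ManyZeros
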