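import Pool.Agent.Lib.MP_51e19e_an.Sq.Top

/-- There is an absolute constant `C` such that for every sign sequence (`a n` is the sign of the
term `1 / (t ^ 2 + (n + 1) ^ 2)`) and every `X ≥ 2` the number of real zeros in `(-X, X)` is at
most `C √(X log X)`. -/
theorem Pool.Agent.Results.MP_51e19e_an.ZerosSqrt.result :
    ∃ C : ℝ, ∀ a : ℕ → ℝ, (∀ n, a n = 1 ∨ a n = -1) → ∀ X : ℝ, 2 ≤ X →
      {t : ℝ | |t| < X ∧ ∑' n : ℕ, a n / (t ^ 2 + ((n : ℝ) + 1) ^ 2) = 0}.Finite ∧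
      ({t : ℝ | |t| < X ∧ ∑' n : ℕ, a n / (t ^ 2 + ((n : ℝ) + 1) ^ 2) = 0}.ncard : ℝ) ≤
        C * √(X * Real.log X) :=
  Pool.Agent.Lib.MP_51e19e_an.Sq.main
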